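import Pool.Agent.H42.QP.PenFin

/-! # MP_2af937_nt, partial answer to Q1: maps with Chebyshev reduction, and all scaled Chebyshev polynomials of prime
power degree over `ℚ`.

`D_d = dickson 1 1 d` is the Chebyshev (Dickson) polynomial with `D_d (z + 1 / z) = z ^ d + 1 / z ^ d`.

(1) Let `φ = p / q` be a rational map of degree `d` over a number field `K` and `β ∈ K` a critical point which is not
periodic. If for one prime `v` of `K` with `v ∤ d` the reduction of `φ` is `D_d` or `- D_d` (if `d` is not a prime power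
an additional condition on `β` modulo `v` is needed), then Q1 holds for `(φ, β)`: over a finite extension of `K` the
primes modulo which `β` is periodic have natural density `0`.

(2) For every prime power `d`, every rational number `μ ≠ 0` and every critical point `β` of `μ D_d` which is not periodic Q1
holds over `ℚ (β)`. The same for `μ` in a number field, unless `1 + 1 / μ` and `1 - 1 / μ` are both units. -/

set_option autoImplicit false

open Polynomial NumberField IsDedekindDomain Filter Topology

namespace Pool.Agent.Results.MP_2af937_nt.ChebyshevReduction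

open scoped Classical in
/-- The rational map `p / q` on the projective line `P¹(A) = A ∪ {∞}` (`none` is `∞`), where
`deg q < deg p`, so that `∞` is a fixed point. -/
noncomputable def rat {K : Type} [Field K] (p q : K[X]) (A : Type) [Field A] [Algebra K A] :
    Option A → Option A
  | none => none
  | some x => if aeval x q = 0 then none else some (aeval x p / aeval x q)

/-- The conclusion of Q1 for the map `φ = p / q` and the point `β ∈ K`: there is a finite extension `K'` of `K` such that
the set of primes `w` of `K'` for which some `φ ^ n (β)`, `n ≥ 1`, is not `∞` and is congruent to `β` modulo `w` has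
natural density `0` (for all but finitely many `w` this condition says that `β` is periodic modulo `w`). -/
def PeriodicPrimesDensityZero {K : Type} [Field K] [NumberField K] (p q : K[X]) (β : K) : Prop :=
  ∃ (K' : Type) (_ : Field K') (_ : NumberField K') (_ : Algebra K K'),
    Tendsto (fun X : ℕ =>
      ({w : HeightOneSpectrum (𝓞 K') | Ideal.absNorm w.asIdeal ≤ X ∧
        ∃ n, 1 ≤ n ∧ ∃ x : K', (rat p q K')^[n] (some (algebraMap K K' β)) = some x ∧
          w.valuation K' (x - algebraMap K K' β) < 1}.ncard : ℝ) /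
      ({w : HeightOneSpectrum (𝓞 K') | Ideal.absNorm w.asIdeal ≤ X}.ncard : ℝ))
      atTop (𝓝 0)

/-- For some prime `v` of `K`, not dividing `d = deg p`, and a sign `ε`: `p ≡ ε D_d` and `q ≡ 1` modulo `v`, and (only if `d` is not
a prime power and `β` is integral at `v`) for every prime `ℓ` dividing `d`, `D_m' (β)` is a unit at `v`, where `m` is the largest divisor of
`d` prime to `ℓ`. (For a prime power `d` we have `m = 1`, `D_m' = 1`.) -/
def HasChebyshevReduction {K : Type} [Field K] [NumberField K] (p q : K[X]) (β : K) : Prop :=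
  ∃ (v : HeightOneSpectrum (𝓞 K)) (ε : K), (ε = 1 ∨ ε = -1) ∧ v.valuation K (p.natDegree : K) = 1 ∧
    (∀ i, v.valuation K ((p - C ε * dickson 1 (1 : K) p.natDegree).coeff i) < 1) ∧
    (∀ i, v.valuation K ((q - 1).coeff i) < 1) ∧
    (v.valuation K β ≤ 1 → ∀ ℓ a m : ℕ, ℓ.Prime → 1 ≤ a → p.natDegree = ℓ ^ a * m → ¬ ℓ ∣ m →
      v.valuation K ((derivative (dickson 1 (1 : K) m)).eval β) = 1)

/-- (1) `K` a number field, `φ = p / q` with `p, q ∈ K[x]` coprime, `deg p ≥ 2`, `deg q < deg p`, `β ∈ K` a
critical point of `φ` which is not periodic. If `φ` has Chebyshev reduction then Q1 holds for `(φ, β)`.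
(2) `K` a number field, `d = ℓ ^ e` a prime power, `μ ≠ 0` in `K`, `φ = μ D_d`, `β ∈ K` a critical point of `φ` which is
not periodic. If `μ` is rational, or if `1 + 1 / μ` and `1 - 1 / μ` are not both units of the ring of integers of `K`, then
Q1 holds for `(φ, β)`. -/
theorem result :
    (∀ (K : Type) [Field K] [NumberField K] (p q : K[X]) (β : K), IsCoprime p q → 2 ≤ p.natDegree →
      q.natDegree < p.natDegree → (derivative p * q - p * derivative q).eval β = 0 →
      (∀ n, 1 ≤ n → (rat p q K)^[n] (some β) ≠ some β) →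
      HasChebyshevReduction p q β → PeriodicPrimesDensityZero p q β) ∧
    (∀ (K : Type) [Field K] [NumberField K] (ℓ e : ℕ) (μ β : K), ℓ.Prime → 1 ≤ e → μ ≠ 0 →
      (derivative (C μ * dickson 1 (1 : K) (ℓ ^ e))).eval β = 0 →
      (∀ n, 1 ≤ n → (rat (C μ * dickson 1 (1 : K) (ℓ ^ e)) 1 K)^[n] (some β) ≠ some β) →
      ((∃ r : ℚ, μ = algebraMap ℚ K r) ∨
        ¬ ∃ u u' : (𝓞 K)ˣ, ((u : 𝓞 K) : K) = 1 + μ⁻¹ ∧ ((u' : 𝓞 K) : K) = 1 - μ⁻¹) →
      PeriodicPrimesDensityZero (C μ * dickson 1 (1 : K) (ℓ ^ e)) 1 β) := by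
  have hR : ∀ (K : Type) [Field K] (p q : K[X]) (A : Type) [Field A] [Algebra K A],
      rat p q A = Pool.Agent.H42.QP.rat p q A := by
    intro K _ p q A _ _
    funext x
    cases x <;> rfl
  refine ⟨?_, ?_⟩
  · intro K _ _ p q β hcop hd hq hcrit hper ⟨v, ε, hε, hv, hred, hredq, hprim⟩
    obtain ⟨K', i1, i2, i3, h⟩ := Pool.Agent.H42.QP.cheb_main' hcop hd rfl hq hcrit
      (fun n hn => by rw [← hR]; exact hper n hn) hv
      (by rcases hε with rfl | rfl <;> norm_num) hred hredq hprim
    refine ⟨K', i1, i2, i3, ?_⟩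
    rw [hR]
    exact Pool.Agent.H42.QP.efin_tendsto h
  · intro K _ _ ℓ e μ β hℓ he hμ hβ hper hu
    have hu' : ¬ ∃ u u' : (𝓞 K)ˣ, ((u : 𝓞 K) : K) = 1 + μ⁻¹ ∧ ((u' : 𝓞 K) : K) = 1 - μ⁻¹ := by
      rcases hu with ⟨r, rfl⟩ | h
      · rintro ⟨u, u', h1, h2⟩
        exact Pool.Agent.H42.QP.rat_units (by
          rintro rfl
          exact hμ (map_zero _)) h1 h2
      · exact h
    have hβ' : (derivative (dickson 1 (1 : K) (ℓ ^ e))).eval β = 0 := by
      rw [derivative_C_mul, eval_C_mul] at hβ
      exact (mul_eq_zero.1 hβ).resolve_left hμ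
    obtain ⟨K', i1, i2, i3, h⟩ := Pool.Agent.H42.QP.pencil_main hμ hℓ he hβ'
      (fun n hn => by
        have h1 := hper n hn
        rw [hR, Pool.Agent.H42.QP.rat_one] at h1
        intro h2
        apply h1
        rw [Option.some_inj, ← h2]
        congr 1
        ) hu'
    refine ⟨K', i1, i2, i3, ?_⟩
    have hset : {w : HeightOneSpectrum (𝓞 K') | ∃ n, 1 ≤ n ∧ ∃ x : K',
        (rat (C μ * dickson 1 (1 : K) (ℓ ^ e)) 1 K')^[n] (some (algebraMap K K' β)) = some x ∧
          w.valuation K' (x - algebraMap K K' β) < 1} =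
      {w | ∃ n, 1 ≤ n ∧ w.valuation K' ((fun x => aeval x (C μ * dickson 1 (1 : K) (ℓ ^ e)))^[n]
        (algebraMap K K' β) - algebraMap K K' β) < 1} := by
      ext w
      constructor
      · rintro ⟨n, hn, x, hx, hw⟩
        rw [hR, Pool.Agent.H42.QP.rat_one, Option.some_inj] at hx
        exact ⟨n, hn, by rw [hx]; exact hw⟩
      · rintro ⟨n, hn, hw⟩
        exact ⟨n, hn, _, by rw [hR, Pool.Agent.H42.QP.rat_one], hw⟩
    have h' := Pool.Agent.H42.QP.efin_tendsto (K := K') (by
      rw [← hset] at h
      exact h)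
    exact h'

end Pool.Agent.Results.MP_2af937_nt.ChebyshevReduction
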