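import Pool.Agent.H42.ES.XCe
import Pool.Agent.H42.ES.YAf
import Pool.Agent.H42.PCM.B2

/-! # MP_2af937_nt, Q1 for eventually stable maps: the conclusion of the problem for every map `φ` of
degree at least 2 on the projective line over a number field and every critical point `β` which is not
periodic, whenever `(φ, β)` is eventually stable. Eventual stability is also proved if `β` reduces to
an exceptional point at some prime of good reduction. There is no condition on the multiplicity of `β` or on the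
other critical points. Points of the projective line are given by nonzero vectors up to scalars. -/

set_option autoImplicit false

open NumberField Filter Topology

namespace Pool.Agent.Results.MP_2af937_nt.EventuallyStableMaps

/-- The map `(F : G)` on vectors with coordinates in `A`. -/
noncomputable def ev {R A : Type} [CommRing R] [CommRing A] (f : R →+* A)
    (F G : MvPolynomial (Fin 2) R) (v : Fin 2 → A) : Fin 2 → A :=
  ![MvPolynomial.eval₂ f v F, MvPolynomial.eval₂ f v G]

/-- The forms `F, G` over `A` have no common zero on the projective line: the ideal which they generate contains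
a power of each variable. -/
def NoCommonZero {R A : Type} [CommRing R] [CommRing A] (f : R →+* A)
    (F G : MvPolynomial (Fin 2) R) : Prop :=
  ∃ N : ℕ,
    (MvPolynomial.X (0 : Fin 2) : MvPolynomial (Fin 2) A) ^ N ∈
      Ideal.span {MvPolynomial.map f F, MvPolynomial.map f G} ∧
    (MvPolynomial.X (1 : Fin 2) : MvPolynomial (Fin 2) A) ^ N ∈
      Ideal.span {MvPolynomial.map f F, MvPolynomial.map f G}

/-- The inclusion of the integers of `K` in the algebraic closure of `K`. -/
noncomputable def toC (K : Type) [Field K] : 𝓞 K →+* AlgebraicClosure K :=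
  (algebraMap K (AlgebraicClosure K)).comp (algebraMap (𝓞 K) K)

/-- `β` is a critical point of `(F : G)`: the Jacobian determinant vanishes at `β`. -/
def IsCritical {K : Type} [Field K] (F G : MvPolynomial (Fin 2) (𝓞 K))
    (β : Fin 2 → AlgebraicClosure K) : Prop :=
  MvPolynomial.eval₂ (toC K) β
    (MvPolynomial.pderiv (0 : Fin 2) F * MvPolynomial.pderiv (1 : Fin 2) G
      - MvPolynomial.pderiv (1 : Fin 2) F * MvPolynomial.pderiv (0 : Fin 2) G) = 0

/-- The point `v` is periodic under `(F : G)`. -/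
def IsPeriodic {R A : Type} [CommRing R] [CommRing A] (f : R →+* A)
    (F G : MvPolynomial (Fin 2) R) (v : Fin 2 → A) : Prop :=
  ∃ n : ℕ, 1 ≤ n ∧ ∃ t : A, (ev f F G)^[n] v = t • v

/-- `σ` is the inclusion of the integers of `K` in those of `L`, `ι` an embedding of `L` in `K̄` over `K`, and `c` is
a vector of integers of `L` which gives the point `β`. -/
def IsRep {K L : Type} [Field K] [Field L] [Algebra K L] (β : Fin 2 → AlgebraicClosure K)
    (σ : 𝓞 K →+* 𝓞 L) (ι : L →ₐ[K] AlgebraicClosure K) (c : Fin 2 → 𝓞 L) : Prop :=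
  (∀ x : 𝓞 K, ((σ x : 𝓞 L) : L) = algebraMap K L (x : K)) ∧
    ∃ s : AlgebraicClosure K, s ≠ 0 ∧ ∀ i : Fin 2, ι ((c i : 𝓞 L) : L) = s * β i

/-- `c` reduces to a point modulo the ideal `P` and `(F : G)` has good reduction modulo `P`. -/
def GoodAt {R O : Type} [CommRing R] [CommRing O] (σ : R →+* O) (F G : MvPolynomial (Fin 2) R)
    (c : Fin 2 → O) (P : Ideal O) : Prop :=
  (∃ i : Fin 2, Ideal.Quotient.mk P (c i) ≠ 0) ∧ NoCommonZero ((Ideal.Quotient.mk P).comp σ) F G

/-- The set `S` of primes of `L` has natural density `0`. -/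
def DensityZero {L : Type} [Field L] [NumberField L] (S : Set (Ideal (𝓞 L))) : Prop :=
  Tendsto (fun X : ℕ =>
    ((Set.ncard {p : Ideal (𝓞 L) | p.IsPrime ∧ p ≠ ⊥ ∧ Ideal.absNorm p ≤ X ∧ p ∈ S} : ℕ) : ℝ) /
      ((Set.ncard {p : Ideal (𝓞 L) | p.IsPrime ∧ p ≠ ⊥ ∧ Ideal.absNorm p ≤ X} : ℕ) : ℝ))
    atTop (nhds 0)

/-- `(φ, β)` is eventually stable, `φ = (F : G)`: the number of orbits of `Gal(K̄/K)` on the set of the points
`x` of the projective line over `K̄` with `φ^n (x) = β` is bounded independently of `n` (`S` represents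
the orbits). -/
def EventuallyStable {K : Type} [Field K] (F G : MvPolynomial (Fin 2) (𝓞 K))
    (β : Fin 2 → AlgebraicClosure K) : Prop :=
  ∃ B : ℕ, ∀ n : ℕ, ∃ S : Finset (Fin 2 → AlgebraicClosure K), S.card ≤ B ∧
    ∀ x : Fin 2 → AlgebraicClosure K, x ≠ 0 →
      (∃ t : AlgebraicClosure K, (ev (toC K) F G)^[n] x = t • β) →
      ∃ r ∈ S, ∃ (g : AlgebraicClosure K ≃ₐ[K] AlgebraicClosure K) (a : AlgebraicClosure K),
        x = a • fun i => g (r i)

/-- `β` has exceptional reduction at some prime: there are a number field `L` containing `K` and the coordinates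
of `β`, a nonzero prime `P` of `L` of good reduction and `m ≥ 1` such that over every extension
field `k` of the residue field the only point `w` with `φ^m (w) = β` modulo `P` is the reduction of `β`. -/
def ExceptionalReduction {K : Type} [Field K] (F G : MvPolynomial (Fin 2) (𝓞 K))
    (β : Fin 2 → AlgebraicClosure K) : Prop :=
  ∃ (L : Type) (_ : Field L) (_ : NumberField L) (_ : Algebra K L) (σ : 𝓞 K →+* 𝓞 L)
    (ι : L →ₐ[K] AlgebraicClosure K) (c : Fin 2 → 𝓞 L) (P : Ideal (𝓞 L)) (m : ℕ),
    IsRep β σ ι c ∧ P.IsPrime ∧ P ≠ ⊥ ∧ GoodAt σ F G c P ∧ 1 ≤ m ∧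
    ∀ (k : Type) [Field k] (π : 𝓞 L →+* k), RingHom.ker π = P →
      ∀ w : Fin 2 → k, w ≠ 0 →
        (∃ t : k, (ev (π.comp σ) F G)^[m] w = t • fun i => π (c i)) →
        ∃ a : k, w = a • fun i => π (c i)

/-- The conclusion of Q1 (as in its frozen statement) for every `φ = (F : G)` of degree `d ≥ 2` over a number
field `K` and every critical point `β` which is not periodic, if `(φ, β)` is eventually stable or has
exceptional reduction at some prime. -/
theorem result (K : Type) [Field K] [NumberField K] (d : ℕ) (F G : MvPolynomial (Fin 2) (𝓞 K))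
    (hd : 2 ≤ d) (hF : F.IsHomogeneous d) (hG : G.IsHomogeneous d)
    (hres : NoCommonZero (algebraMap (𝓞 K) K) F G) (β : Fin 2 → AlgebraicClosure K) (hβ : β ≠ 0)
    (hcrit : IsCritical F G β) (hper : ¬ IsPeriodic (toC K) F G β)
    (hES : EventuallyStable F G β ∨ ExceptionalReduction F G β) :
    ∃ (K' : Type) (_ : Field K') (_ : NumberField K') (_ : Algebra K K') (σ : 𝓞 K →+* 𝓞 K')
      (ι : K' →ₐ[K] AlgebraicClosure K) (c : Fin 2 → 𝓞 K'), IsRep β σ ι c ∧
        DensityZero {p : Ideal (𝓞 K') | GoodAt σ F G c p ∧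
          IsPeriodic ((Ideal.Quotient.mk p).comp σ) F G fun i => Ideal.Quotient.mk p (c i)} := by
  have hst : Pool.Agent.H42.ES.EvSt (algebraMap (𝓞 K) K) F G β := by
    rcases hES with h | ⟨L, iF, iN, iA, σ, ι, c, P, m, ⟨h1, s, h2, h3⟩, h4, h5, ⟨h6, h7⟩, h8, h9⟩
    · exact h
    · exact Pool.Agent.H42.ES.es_exc (v := ⟨P, h4, h5⟩) ι h1 hd hF hG hres h2 h3 hper
        ⟨h6, h7, h8, h9⟩
  obtain ⟨K', iF, iN, iA, σ, ι, c, s, h1, h2, h3, h4⟩ := Pool.Agent.H42.ES.gen_main
    (fun E [Field E] [NumberField E] => Pool.Agent.H42.PC.pith E) K d F G hd hF hG hres β hβ hcrit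
    hper hst
  refine ⟨K', iF, iN, iA, σ, ι, c, ⟨h1, s, h2, h3⟩, ?_⟩
  refine h4.congr fun X => ?_
  congr 3
  ext p
  constructor
  · rintro ⟨a1, a2, a3, a4, a5, a6⟩
    exact ⟨a1, a2, a3, ⟨a4, a5⟩, a6⟩
  · rintro ⟨a1, a2, a3, ⟨a4, a5⟩, a6⟩
    exact ⟨a1, a2, a3, a4, a5, a6⟩

end Pool.Agent.Results.MP_2af937_nt.EventuallyStableMaps
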