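import Pool.Agent.H42.QP.Fin2

/-! # MP_2af937_nt, Q1 for quadratic polynomials: for every quadratic polynomial `f` over `ℚ` and its critical
point `β`, if `β` is not periodic then the set of primes modulo which `β` is periodic has natural density `0` (no
base extension is needed), and `(f, β)` is eventually stable. The same over every number field `K`, unless
`1 + 2 / c` is a unit of infinite order of the ring of integers, where `f` is conjugate to `x ^ 2 + c`. -/

set_option autoImplicit false

open Polynomial NumberField IsDedekindDomain Filter Topology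

namespace Pool.Agent.Results.MP_2af937_nt.QuadraticPolynomials

/-- The parameter `c` of a quadratic polynomial `f` with critical point `β`: `f` is conjugate to `x ^ 2 + c` under
`x ↦ a (x - β)`, `a` the leading coefficient. -/
noncomputable def param {K : Type} [Field K] (f : K[X]) (β : K) : K :=
  f.leadingCoeff * (f.eval β - β)

/-- The number of irreducible factors over `K` of `f ^ n (x) - β` (`n`-th iterate) is bounded
independently of `n`. -/
def EventuallyStable {K : Type} [Field K] (f : K[X]) (β : K) : Prop :=
  ∃ B : ℕ, ∀ n : ℕ,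
    {g : K[X] | g.Monic ∧ Irreducible g ∧ g ∣ (f.comp)^[n] X - C β}.ncard ≤ B

/-- The set of primes `v` of `K` such that `f ^ n (β) ≡ β` modulo `v` for some `n ≥ 1` has natural density `0`. (For
all but finitely many `v` this says that `β` is periodic modulo `v`.) -/
def PeriodicPrimesDensityZero {K : Type} [Field K] [NumberField K] (f : K[X]) (β : K) : Prop :=
  Tendsto (fun X : ℕ =>
    ({v : HeightOneSpectrum (𝓞 K) | Ideal.absNorm v.asIdeal ≤ X ∧
      ∃ n, 1 ≤ n ∧ v.valuation K ((fun x => f.eval x)^[n] β - β) < 1}.ncard : ℝ) /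
    ({v : HeightOneSpectrum (𝓞 K) | Ideal.absNorm v.asIdeal ≤ X}.ncard : ℝ))
    atTop (𝓝 0)

/-- (1) `K` a number field, `f` a quadratic polynomial over `K` with critical point `β`, not periodic; suppose that
`1 + 2 / c` is not a unit of infinite order of the ring of integers (`c = param f β`). Then `(f, β)` is
eventually stable and the primes modulo which `β` is periodic have density `0`. (2) For
`K = ℚ` this holds for every quadratic polynomial. -/
theorem result :
    (∀ (K : Type) [Field K] [NumberField K] (f : K[X]) (β : K), f.natDegree = 2 →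
      (derivative f).eval β = 0 → (∀ n, 1 ≤ n → (fun x => f.eval x)^[n] β ≠ β) →
      (∀ u : (𝓞 K)ˣ, ((u : 𝓞 K) : K) = 1 + 2 / param f β → ∃ n : ℕ, 1 ≤ n ∧ u ^ n = 1) →
      EventuallyStable f β ∧ PeriodicPrimesDensityZero f β) ∧
    (∀ (f : ℚ[X]) (β : ℚ), f.natDegree = 2 →
      (derivative f).eval β = 0 → (∀ n, 1 ≤ n → (fun x => f.eval x)^[n] β ≠ β) →
      EventuallyStable f β ∧ PeriodicPrimesDensityZero f β) := by
  have h1 : ∀ (K : Type) [Field K] [NumberField K] (f : K[X]) (β : K), f.natDegree = 2 →
      (derivative f).eval β = 0 → (∀ n, 1 ≤ n → (fun x => f.eval x)^[n] β ≠ β) →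
      (∀ u : (𝓞 K)ˣ, ((u : 𝓞 K) : K) = 1 + 2 / param f β → ∃ n : ℕ, 1 ≤ n ∧ u ^ n = 1) →
      EventuallyStable f β ∧ PeriodicPrimesDensityZero f β := by
    intro K _ _ f β hf hβ hper hu
    exact ⟨Pool.Agent.H42.QP.quad_es hf hβ hper hu,
      Pool.Agent.H42.QP.efin_tendsto (Pool.Agent.H42.QP.quad_dens hf hβ hper hu)⟩
  refine ⟨h1, fun f β hf hβ hper => h1 ℚ f β hf hβ hper fun u _ => ⟨2, by norm_num, ?_⟩⟩
  exact Pool.Agent.H42.QP.unit_rat u

end Pool.Agent.Results.MP_2af937_nt.QuadraticPolynomials
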